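import Pool.Agent.H752.PL.StubsN
import Pool.Agent.H622R2.PL.L7

/-!
# Locality of nondeterministic computations with a small memory
-/

set_option autoImplicit false

namespace Pool.Agent.H752.PL

open Pool.Agent.NPC Pool.Agent.H620R2.Gauge Finset H568R2 Pool.Agent.H752.GE Filter

/-- the deterministic part -/
def N7_m (M : NAlg) : MAlg := ⟨M.act, M.act_poly, M.next false, M.next_poly false⟩

/-- the first question after the first nonempty write in memory `s`, with choice `g` -/
noncomputable def N7_q (M : NAlg) (B : ℕ) (x s : List Bool) (g : Bool) : List Bool :=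
  match M.act s with
  | false :: z => if (M.next g (pairBits s [])).length ≤ B then
      z ++ L7_q (N7_m M) B x (M.next g (pairBits s [])) else []
  | _ => []

theorem N7_q_eq {M : NAlg} {B : ℕ} {x s z : List Bool} {g : Bool} (h : M.act s = false :: z)
    (hB : (M.next g (pairBits s [])).length ≤ B) :
    N7_q M B x s g = z ++ L7_q (N7_m M) B x (M.next g (pairBits s [])) := by
  unfold N7_q
  rw [h]
  simp only
  rw [if_pos hB]

theorem N7_q_len {M : NAlg} {B : ℕ} {x s : List Bool} (g : Bool) (hs : s.length ≤ B)
    {w : Polynomial ℕ} (hw : ∀ s : List Bool, ((N7_m M).act s).length ≤ w.eval s.length) :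
    (N7_q M B x s g).length ≤ 2 ^ (B + 2) * w.eval B := by
  unfold N7_q
  split
  · rename_i z hz
    split_ifs with hB
    · have h1 := L7_q_len (x := x) hB hw
      have h2 : (false :: z).length ≤ w.eval s.length := by rw [← hz]; exact hw s
      have h3 : w.eval s.length ≤ w.eval B := eval_mono w hs
      rw [List.length_cons] at h2
      rw [List.length_append]
      have h4 : 1 ≤ 2 ^ (B + 1) := Nat.one_le_two_pow
      have h5 : 2 ^ (B + 2) = 2 ^ (B + 1) + 2 ^ (B + 1) := by rw [pow_succ 2 (B + 1)]; ring
      have h6 : 1 * w.eval B ≤ 2 ^ (B + 1) * w.eval B := Nat.mul_le_mul_right _ h4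
      rw [h5, Nat.add_mul]
      omega
    · simp
  · simp

theorem N7_len {M : NAlg} {B : ℕ} {A : Oracle} {x s y : List Bool} (h : NReachB M B A x s y) :
    s.length ≤ B := by
  cases h with
  | start hB => exact hB
  | write _ _ _ hB => exact hB
  | read _ _ _ hB => exact hB
  | ask _ _ _ hB => exact hB

theorem N7_inv {M : NAlg} {B : ℕ} {A : Oracle} {x s y : List Bool} (h : NReachB M B A x s y) :
    y = [] ∨ ∃ (s0 z y' : List Bool) (g : Bool) (k : ℕ), s0.length ≤ B ∧
      M.act s0 = false :: z ∧ (M.next g (pairBits s0 [])).length ≤ B ∧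
      L7_it (N7_m M) B x k (M.next g (pairBits s0 [])) = some (s, y') ∧ y = z ++ y' := by
  induction h with
  | start hB => exact Or.inl rfl
  | @write s y z g hr hg hact hB ih =>
    by_cases hy : y = []
    · right
      refine ⟨s, z, [], g, 0, N7_len hr, hact, hB, rfl, ?_⟩
      rw [hy]
      simp
    · obtain ⟨s0, z0, y', g0, k, h0, h1, h2, hk, he⟩ := ih.resolve_left hy
      have hgf : g = false := by
        cases g
        · rfl
        · exact absurd (hg rfl) hy
      subst hgf
      right
      refine ⟨s0, z0, y' ++ z, g0, k + 1, h0, h1, h2, ?_, by rw [he, List.append_assoc]⟩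
      rw [L7_it, hk]
      have h3 : (N7_m M).act s = false :: z := hact
      have h4 : ((N7_m M).next (pairBits s [])).length ≤ B := hB
      simp [L7_stp, h3, h4]
      rfl
  | @read s y i g hr hg hact hB ih =>
    by_cases hy : y = []
    · exact Or.inl hy
    · obtain ⟨s0, z0, y', g0, k, h0, h1, h2, hk, he⟩ := ih.resolve_left hy
      have hgf : g = false := by
        cases g
        · rfl
        · exact absurd (hg rfl) hy
      subst hgf
      right
      refine ⟨s0, z0, y', g0, k + 1, h0, h1, h2, ?_, he⟩
      rw [L7_it, hk]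
      have h3 : (N7_m M).act s = true :: true :: i := hact
      have h4 : ((N7_m M).next (pairBits s (x[val i]?).toList)).length ≤ B := hB
      simp [L7_stp, h3, h4]
      rfl
  | ask _ _ _ _ _ => exact Or.inl rfl

theorem t_nqs : St_nqs := by
  classical
  intro M
  obtain ⟨w, hw⟩ := L7_len (N7_m M)
  refine ⟨w, fun B x => ?_⟩
  obtain ⟨S, hS⟩ : ∃ S : Finset ℕ, S = (Finset.range (2 ^ (B + 1) - 1)).filter
    (fun i => (str i).length ≤ B) := ⟨_, rfl⟩
  obtain ⟨U, hU⟩ : ∃ U : Finset (List Bool), U = insert [] ((S ×ˢ (Finset.univ : Finset Bool)).image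
    (fun p => N7_q M B x (str p.1) p.2)) := ⟨_, rfl⟩
  have hmem : ∀ (s0 : List Bool) (g : Bool), s0.length ≤ B → N7_q M B x s0 g ∈ U := by
    intro s0 g h0
    rw [hU]
    refine Finset.mem_insert_of_mem (Finset.mem_image.mpr ⟨(idx s0, g), ?_, ?_⟩)
    · rw [Finset.mem_product, hS]
      refine ⟨Finset.mem_filter.mpr ⟨?_, ?_⟩, Finset.mem_univ _⟩
      · rw [Finset.mem_range]
        have h2 := idx_lt s0
        have h3 : 2 ^ (s0.length + 1) ≤ 2 ^ (B + 1) :=
          Nat.pow_le_pow_right (by norm_num) (by omega)
        show idx s0 < 2 ^ (B + 1) - 1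
        omega
      · show (str (idx s0)).length ≤ B
        rw [str_idx]; exact h0
    · show N7_q M B x (str (idx s0)) g = _
      rw [str_idx]
  refine ⟨U, ?_, ?_, ?_⟩
  · rw [hU]
    have h1 : S.card ≤ 2 ^ (B + 1) - 1 := by
      rw [hS]
      refine (Finset.card_filter_le _ _).trans ?_
      rw [Finset.card_range]
    have h2 := Finset.card_insert_le ([] : List Bool)
      ((S ×ˢ (Finset.univ : Finset Bool)).image (fun p => N7_q M B x (str p.1) p.2))
    have h3 : ((S ×ˢ (Finset.univ : Finset Bool)).image
        (fun p => N7_q M B x (str p.1) p.2)).card ≤ S.card * 2 := by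
      refine Finset.card_image_le.trans ?_
      rw [Finset.card_product, Finset.card_univ, Fintype.card_bool]
    have h4 : 1 ≤ 2 ^ (B + 1) := Nat.one_le_two_pow
    have h5 : 2 ^ (B + 2) = 2 ^ (B + 1) + 2 ^ (B + 1) := by rw [pow_succ 2 (B + 1)]; ring
    omega
  · intro u hu
    rw [hU] at hu
    rcases Finset.mem_insert.mp hu with rfl | hu
    · simp
    · obtain ⟨p, hp, rfl⟩ := Finset.mem_image.mp hu
      have h1 := (Finset.mem_product.mp hp).1
      rw [hS] at h1
      exact N7_q_len p.2 (Finset.mem_filter.mp h1).2 hw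
  · have key : ∀ A A' : Oracle, (∀ u ∈ U, A u = A' u) →
        ∀ s y, NReachB M B A x s y → NReachB M B A' x s y := by
      intro A A' hA s y h
      induction h with
      | start hB => exact NReachB.start hB
      | write _ hg hact hB ih => exact NReachB.write ih hg hact hB
      | read _ hg hact hB ih => exact NReachB.read ih hg hact hB
      | @ask s y i g hr hg hact hB ih =>
        have hy : A y = A' y := by
          apply hA
          rcases N7_inv hr with h1 | ⟨s0, z, y', g0, k, h0, h1, h2, hk, he⟩
          · rw [h1, hU]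
            exact Finset.mem_insert_self _ _
          · have h3 : (N7_m M).act s = true :: false :: i := hact
            have h4 := hmem s0 g0 h0
            rw [N7_q_eq h1 h2, L7_q_eq hk h3, ← he] at h4
            exact h4
        rw [hy] at hB ⊢
        exact NReachB.ask ih hg hact hB
    intro A A' hA
    constructor
    · rintro ⟨s, y, h, ha⟩
      exact ⟨s, y, key A A' hA s y h, ha⟩
    · rintro ⟨s, y, h, ha⟩
      exact ⟨s, y, key A' A (fun u hu => (hA u hu).symm) s y h, ha⟩

end Pool.Agent.H752.PL
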